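import Pool.Agent.Q41.AB.Stm3
import Pool.Agent.Q213.AB.LP
import Pool.Agent.Q41.RC.Vx

/-!
Linear programming duality with finitely many vertices, which have small denominators, and with
bounded dual solutions.
-/

set_option autoImplicit false

namespace Pool.Agent.Q161.AB

open Finset

/-- **Conic combinations with bounded coefficients.** -/
theorem conic {ι κ : Type} [Fintype ι] [Fintype κ] (a : ι → κ → ℚ) :
    ∃ C : ℕ, ∀ (v : κ → ℕ) (l : ι → ℚ), (∀ i, 0 ≤ l i) → (∀ c, ∑ i, l i * a i c = v c) →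
      ∃ m : ι → ℚ, (∀ i, 0 ≤ m i ∧ m i ≤ C * ∑ c, (v c : ℚ)) ∧ (∀ c, ∑ i, m i * a i c = v c) ∧
        ∀ i, l i = 0 → m i = 0 := by
  classical
  -- left inverses
  have hL : ∀ T : Finset ι, ∃ L : (κ → ℚ) →ₗ[ℚ] (T → ℚ),
      LinearIndependent ℚ (fun i : T => a i.1) → ∀ m : T → ℚ, L (∑ i, m i • a i.1) = m := by
    intro T
    by_cases hT : LinearIndependent ℚ (fun i : T => a i.1)
    · have hinj : LinearMap.ker (Fintype.linearCombination ℚ (fun i : T => a i.1)) = ⊥ := by
        rw [LinearMap.ker_eq_bot']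
        intro m hm
        rw [Fintype.linearCombination_apply] at hm
        funext i
        exact Fintype.linearIndependent_iff.1 hT m hm i
      obtain ⟨L, hL⟩ := LinearMap.exists_leftInverse_of_injective _ hinj
      refine ⟨L, fun _ m => ?_⟩
      have := LinearMap.congr_fun hL m
      simpa [Fintype.linearCombination_apply] using this
    · exact ⟨0, fun h => absurd h hT⟩
  choose L hL using hL
  set D : ℚ := ∑ T : Finset ι, ∑ i : T, ∑ c, |L T (Pi.single c 1) i| with hD
  obtain ⟨C, hC⟩ := exists_nat_ge D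
  refine ⟨C, ?_⟩
  intro v l hl hv
  -- a solution with minimal support
  set P : ℕ → Prop := fun n => ∃ m : ι → ℚ, (∀ i, 0 ≤ m i) ∧ (∀ c, ∑ i, m i * a i c = v c) ∧
    (∀ i, l i = 0 → m i = 0) ∧ (univ.filter (fun i => m i ≠ 0)).card = n with hP
  have hex : ∃ n, P n := ⟨_, l, hl, hv, fun i h => h, rfl⟩
  obtain ⟨m, hm1, hm2, hm3, hm4⟩ := Nat.find_spec hex
  set T : Finset ι := univ.filter (fun i => m i ≠ 0) with hT
  have hmT : ∀ i, i ∉ T → m i = 0 := by
    intro i hi
    rw [hT, mem_filter] at hi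
    by_contra h
    exact hi ⟨mem_univ _, h⟩
  have hmpos : ∀ i, i ∈ T → 0 < m i := by
    intro i hi
    exact lt_of_le_of_ne (hm1 i) (Ne.symm (mem_filter.1 hi).2)
  have hindep : LinearIndependent ℚ (fun i : T => a i.1) := by
    by_contra hdep
    rw [Fintype.not_linearIndependent_iff] at hdep
    obtain ⟨g, hg, i1, hi1⟩ := hdep
    have key : ∀ g : T → ℚ, ∑ i, g i • a i.1 = 0 → (∃ i, 0 < g i) → False := by
      intro g hg ⟨i1, hi1⟩
      obtain ⟨i0, hi0, hmin⟩ := exists_min_image (univ.filter (fun i : T => 0 < g i))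
        (fun i => m i.1 / g i) ⟨i1, mem_filter.2 ⟨mem_univ _, hi1⟩⟩
      have hg0 : 0 < g i0 := (mem_filter.1 hi0).2
      set t : ℚ := m i0.1 / g i0 with ht
      have ht0 : 0 ≤ t := div_nonneg (hm1 _) hg0.le
      set g' : ι → ℚ := fun i => if h : i ∈ T then g ⟨i, h⟩ else 0 with hg'
      have hg'T : ∀ i : T, g' i.1 = g i := by
        intro i
        simp only [hg', i.2, dif_pos, Subtype.coe_eta]
      have hg'n : ∀ i, i ∉ T → g' i = 0 := by
        intro i hi
        simp only [hg', hi, dif_neg, not_false_eq_true]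
      have hsum : ∀ c, ∑ i, g' i * a i c = 0 := by
        intro c
        have h1 := congrFun hg c
        rw [Finset.sum_apply] at h1
        simp only [Pi.smul_apply, smul_eq_mul, Pi.zero_apply] at h1
        rw [← h1, ← sum_subset (subset_univ T), ← sum_coe_sort]
        · exact sum_congr rfl fun i _ => by rw [hg'T]
        · intro i _ hi
          rw [hg'n i hi, zero_mul]
      set m' : ι → ℚ := fun i => m i - t * g' i with hm'
      have hm'0 : ∀ i, 0 ≤ m' i := by
        intro i
        by_cases hi : i ∈ T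
        · simp only [hm']
          rw [hg'T ⟨i, hi⟩]
          rcases le_or_gt (g ⟨i, hi⟩) 0 with h | h
          · have := mul_nonneg_of_nonpos_of_nonpos (neg_nonpos.2 ht0) h
            have h2 := hm1 i
            linarith
          · have h1 := hmin ⟨i, hi⟩ (mem_filter.2 ⟨mem_univ _, h⟩)
            rw [le_div_iff₀ h] at h1
            linarith
        · simp only [hm']
          rw [hg'n i hi, hmT i hi]
          simp
      have hm'i0 : m' i0.1 = 0 := by
        simp only [hm']
        rw [hg'T, ht, div_mul_cancel₀ _ hg0.ne', sub_self]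
      have hsub : univ.filter (fun i => m' i ≠ 0) ⊆ T.erase i0.1 := by
        intro i hi
        have hi' := (mem_filter.1 hi).2
        rw [mem_erase]
        refine ⟨?_, ?_⟩
        · rintro rfl
          exact hi' hm'i0
        · by_contra h
          apply hi'
          simp only [hm']
          rw [hg'n i h, hmT i h]
          simp
      have hlt : (univ.filter (fun i => m' i ≠ 0)).card < Nat.find hex := by
        rw [← hm4]
        exact lt_of_le_of_lt (card_le_card hsub) (card_erase_lt_of_mem i0.2)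
      apply Nat.find_min hex hlt
      refine ⟨m', hm'0, ?_, ?_, rfl⟩
      · intro c
        simp only [hm', sub_mul, sum_sub_distrib, mul_assoc]
        rw [← mul_sum, hsum, mul_zero, sub_zero, hm2]
      · intro i hi
        have h1 := hm3 i hi
        simp only [hm']
        rw [h1, hg'n i (fun h => absurd h1 (hmpos i h).ne')]
        simp
    rcases lt_or_gt_of_ne hi1 with h | h
    · exact key (fun i => - g i) (by
        simp only [neg_smul, sum_neg_distrib, hg, neg_zero]) ⟨i1, by simpa using h⟩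
    · exact key g hg ⟨i1, h⟩
  refine ⟨m, fun i => ⟨hm1 i, ?_⟩, hm2, hm3⟩
  have hv0 : (0 : ℚ) ≤ ∑ c, (v c : ℚ) := sum_nonneg fun c _ => Nat.cast_nonneg _
  by_cases hi : i ∈ T
  · have h1 := hL T hindep (fun i => m i.1)
    have h2 : ∑ j : T, m j.1 • a j.1 = ∑ c, (v c : ℚ) • (Pi.single c (1 : ℚ) : κ → ℚ) := by
      funext c
      rw [Finset.sum_apply, Finset.sum_apply]
      simp only [Pi.smul_apply, smul_eq_mul]
      have h3 : ∑ c', (v c' : ℚ) * (Pi.single c' (1 : ℚ) : κ → ℚ) c = v c := by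
        rw [sum_eq_single c]
        · simp
        · intro c' _ hc'
          rw [Pi.single_eq_of_ne hc'.symm, mul_zero]
        · intro h
          exact absurd (mem_univ _) h
      rw [h3, ← hm2 c, ← sum_subset (subset_univ T)]
      · exact sum_coe_sort T (fun j => m j * a j c)
      · intro j _ hj
        rw [hmT j hj, zero_mul]
    rw [h2, map_sum] at h1
    have h3 := congrFun h1 ⟨i, hi⟩
    rw [Finset.sum_apply] at h3
    simp only [map_smul, Pi.smul_apply, smul_eq_mul] at h3
    rw [← h3]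
    have h4 : ∀ c, |L T (Pi.single c 1) ⟨i, hi⟩| ≤ D := by
      intro c
      have g1 : |L T (Pi.single c 1) ⟨i, hi⟩| ≤ ∑ c, |L T (Pi.single c 1) ⟨i, hi⟩| :=
        single_le_sum (f := fun c => |L T (Pi.single c 1) ⟨i, hi⟩|)
          (fun c _ => abs_nonneg _) (mem_univ c)
      have g2 : ∑ c, |L T (Pi.single c 1) ⟨i, hi⟩| ≤ ∑ i : T, ∑ c, |L T (Pi.single c 1) i| :=
        single_le_sum (f := fun i : T => ∑ c, |L T (Pi.single c 1) i|)
          (fun i _ => sum_nonneg fun c _ => abs_nonneg _) (mem_univ (⟨i, hi⟩ : T))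
      have g3 : ∑ i : T, ∑ c, |L T (Pi.single c 1) i| ≤ D :=
        single_le_sum (f := fun T : Finset ι => ∑ i : T, ∑ c, |L T (Pi.single c 1) i|)
          (fun T _ => sum_nonneg fun i _ => sum_nonneg fun c _ => abs_nonneg _) (mem_univ T)
      linarith
    rw [mul_sum]
    refine sum_le_sum fun c _ => ?_
    have h5 : (0 : ℚ) ≤ v c := Nat.cast_nonneg _
    have h6 : L T (Pi.single c 1) ⟨i, hi⟩ ≤ C :=
      (le_abs_self _).trans ((h4 c).trans hC)
    nlinarith
  · rw [hmT i hi]
    positivity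

/-- **Linear programming duality with finitely many vertices, which have small denominators, and
with bounded dual solutions.** -/
theorem lpx : Pool.Agent.Q41.AB.S_LPX := by
  intro κ R _ _ A b B hB hAB ⟨e0, he0, he1⟩
  classical
  -- feasible points which are tight on `T`
  let Fe : Finset (κ ⊕ R) → (κ → ℚ) → Prop := fun T e => ((∀ c, 0 ≤ e c) ∧
    ∀ r, (b r : ℚ) ≤ ∑ c, (A r c : ℚ) * e c) ∧ (∀ c, Sum.inl c ∈ T → e c = 0) ∧
    ∀ r, Sum.inr r ∈ T → ∑ c, (A r c : ℚ) * e c = b r
  let De : (κ → ℚ) → Prop := fun e => ∃ T : ℕ, 0 < T ∧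
    T ≤ (Fintype.card κ).factorial * B ^ Fintype.card κ ∧ ∀ c, ∃ w : ℤ, (T : ℚ) * e c = w
  have hpick : ∀ T : Finset (κ ⊕ R), ∃ e : κ → ℚ, ((∀ c, 0 ≤ e c) ∧
      ∀ r, (b r : ℚ) ≤ ∑ c, (A r c : ℚ) * e c) ∧ De e ∧ ((∃ e', Fe T e') → Fe T e) := by
    intro T
    by_cases h : ∃ e', Fe T e'
    · obtain ⟨e', ⟨h1, h2⟩, h3, h4⟩ := h
      let A' : R ⊕ ({r : R // Sum.inr r ∈ T} ⊕ {c : κ // Sum.inl c ∈ T}) → κ → ℤ :=
        Sum.elim A (Sum.elim (fun r c => - A r.1 c) (fun c c' => if c.1 = c' then -1 else 0))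
      let b' : R ⊕ ({r : R // Sum.inr r ∈ T} ⊕ {c : κ // Sum.inl c ∈ T}) → ℤ :=
        Sum.elim b (Sum.elim (fun r => - b r.1) (fun _ => 0))
      have hunit : ∀ (e : κ → ℚ) (c : {c : κ // Sum.inl c ∈ T}),
          ∑ c', (A' (Sum.inr (Sum.inr c)) c' : ℚ) * e c' = - e c.1 := by
        intro e c
        rw [sum_eq_single c.1]
        · simp [A']
        · intro c' _ hc'
          simp [A', Ne.symm hc']
        · intro h
          exact absurd (mem_univ _) h
      have hneg : ∀ (e : κ → ℚ) (r : {r : R // Sum.inr r ∈ T}),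
          ∑ c', (A' (Sum.inr (Sum.inl r)) c' : ℚ) * e c' = - ∑ c', (A r.1 c' : ℚ) * e c' := by
        intro e r
        rw [← sum_neg_distrib]
        refine sum_congr rfl fun c' _ => ?_
        simp [A']
      obtain ⟨e, g1, g2, g3⟩ := Pool.Agent.Q41.RC.exists_vertex A' b' hB (by
        rintro (r | r | c) c'
        · exact hAB r c'
        · change |- A r.1 c'| ≤ (B : ℤ)
          rw [abs_neg]
          exact hAB r.1 c'
        · change |(if c.1 = c' then (-1 : ℤ) else 0)| ≤ B
          split_ifs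
          · rw [abs_neg, abs_one]
            exact_mod_cast hB
          · rw [abs_zero]
            positivity) h1 (by
        rintro (r | r | c)
        · exact h2 r
        · rw [hneg, h4 r.1 r.2]
          simp [b']
        · rw [hunit, h3 c.1 c.2]
          simp [b'])
      refine ⟨e, ⟨g1, fun r => g2 (Sum.inl r)⟩, g3, fun _ => ⟨⟨g1, fun r => g2 (Sum.inl r)⟩, ?_, ?_⟩⟩
      · intro c hc
        have := g2 (Sum.inr (Sum.inr ⟨c, hc⟩))
        rw [hunit] at this
        have h5 := g1 c
        simp only [b', Sum.elim_inr, Int.cast_zero] at this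
        linarith
      · intro r hr
        have := g2 (Sum.inr (Sum.inl ⟨r, hr⟩))
        rw [hneg] at this
        have h5 := g2 (Sum.inl r)
        simp only [b', A', Sum.elim_inr, Sum.elim_inl, Int.cast_neg] at this h5
        linarith
    · obtain ⟨e, g1, g2, g3⟩ := Pool.Agent.Q41.RC.exists_vertex A b hB hAB he0 he1
      exact ⟨e, ⟨g1, g2⟩, g3, fun h' => absurd h' h⟩
  choose pick hp1 hp2 hp3 using hpick
  obtain ⟨C, hC⟩ := conic (ι := R ⊕ κ) (Sum.elim (fun r c => (A r c : ℚ))
    (fun c c' => if c = c' then 1 else 0))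
  refine ⟨univ.image pick, ?_, C, fun v => ?_⟩
  · intro e he
    obtain ⟨T, -, rfl⟩ := mem_image.1 he
    exact ⟨(hp1 T).1, (hp1 T).2, hp2 T⟩
  · obtain ⟨e, y, h1, h2, h3, h4, h5⟩ := Pool.Agent.Q213.AB.strong (fun r c => (A r c : ℚ))
      (fun r => (b r : ℚ)) (fun c => (v c : ℚ)) (fun c => Nat.cast_nonneg _) e0 he0 he1
    let T : Finset (κ ⊕ R) := univ.filter fun x => Sum.elim
      (fun c => ∑ r, y r * (A r c : ℚ) ≠ v c) (fun r => y r ≠ 0) x
    -- the difference of the two sides as a sum of nonnegative terms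
    have hid : ∀ (y : R → ℚ) (e' : κ → ℚ), ∑ c, (v c : ℚ) * e' c - ∑ r, y r * (b r : ℚ) =
        ∑ c, ((v c : ℚ) - ∑ r, y r * (A r c : ℚ)) * e' c +
          ∑ r, y r * (∑ c, (A r c : ℚ) * e' c - b r) := by
      intro y e'
      simp only [sub_mul, mul_sub, sum_sub_distrib, sum_mul, mul_sum]
      rw [sum_comm (f := fun c r => y r * (A r c : ℚ) * e' c)]
      simp only [mul_assoc]
      ring
    have hn1 : ∀ c, 0 ≤ ((v c : ℚ) - ∑ r, y r * (A r c : ℚ)) * e c := fun c =>
      mul_nonneg (by linarith [h4 c]) (h1 c)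
    have hn2 : ∀ r, 0 ≤ y r * (∑ c, (A r c : ℚ) * e c - b r) := fun r =>
      mul_nonneg (h3 r) (by linarith [h2 r])
    have hs1 := sum_nonneg (fun c (_ : c ∈ univ) => hn1 c)
    have hs2 := sum_nonneg (fun c (_ : c ∈ univ) => hn2 c)
    have h6 := hid y e
    have hz1 : ∑ c, ((v c : ℚ) - ∑ r, y r * (A r c : ℚ)) * e c = 0 := by linarith
    have hz2 : ∑ r, y r * (∑ c, (A r c : ℚ) * e c - b r) = 0 := by linarith
    have hz1' := (sum_eq_zero_iff_of_nonneg (fun c _ => hn1 c)).1 hz1
    have hz2' := (sum_eq_zero_iff_of_nonneg (fun c _ => hn2 c)).1 hz2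
    have hT : Fe T e := by
      refine ⟨⟨h1, h2⟩, fun c hc => ?_, fun r hr => ?_⟩
      · have h7 : ∑ r, y r * (A r c : ℚ) ≠ v c := (mem_filter.1 hc).2
        rcases mul_eq_zero.1 (hz1' c (mem_univ c)) with h8 | h8
        · exact absurd (by linarith) h7
        · exact h8
      · have h7 : y r ≠ 0 := (mem_filter.1 hr).2
        rcases mul_eq_zero.1 (hz2' r (mem_univ r)) with h8 | h8
        · exact absurd h8 h7
        · linarith
    obtain ⟨-, h9, h10⟩ := hp3 T ⟨e, hT⟩
    -- the bounded dual solution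
    have hsum : ∀ (m : R ⊕ κ → ℚ) (c : κ), ∑ i, m i * Sum.elim (fun r c => (A r c : ℚ))
        (fun c c' => if c = c' then (1 : ℚ) else 0) i c =
        ∑ r, m (Sum.inl r) * (A r c : ℚ) + m (Sum.inr c) := by
      intro m c
      rw [Fintype.sum_sum_type]
      simp
    obtain ⟨m, g1, g2, g3⟩ := hC v (Sum.elim y (fun c => (v c : ℚ) - ∑ r, y r * (A r c : ℚ))) (by
      rintro (r | c)
      · exact h3 r
      · have := h4 c
        simp only [Sum.elim_inr]
        linarith) (by
      intro c
      rw [hsum]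
      simp only [Sum.elim_inl, Sum.elim_inr]
      ring)
    have g2' : ∀ c, ∑ r, m (Sum.inl r) * (A r c : ℚ) + m (Sum.inr c) = v c := by
      intro c
      rw [← hsum]
      exact g2 c
    refine ⟨pick T, mem_image_of_mem _ (mem_univ _), fun r => m (Sum.inl r),
      fun r => g1 (Sum.inl r), fun c => ?_, ?_⟩
    · have := g2' c
      have h7 := (g1 (Sum.inr c)).1
      linarith
    · have h11 := hid (fun r => m (Sum.inl r)) (pick T)
      have h12 : ∑ c, ((v c : ℚ) - ∑ r, m (Sum.inl r) * (A r c : ℚ)) * pick T c = 0 := by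
        refine sum_eq_zero fun c _ => ?_
        by_cases hc : ∑ r, y r * (A r c : ℚ) = v c
        · have h7 := g3 (Sum.inr c) (by
            simp only [Sum.elim_inr]
            rw [hc, sub_self])
          have h8 := g2' c
          rw [h7] at h8
          rw [← h8, add_zero, sub_self, zero_mul]
        · rw [h9 c (mem_filter.2 ⟨mem_univ _, hc⟩), mul_zero]
      have h13 : ∑ r, m (Sum.inl r) * (∑ c, (A r c : ℚ) * pick T c - b r) = 0 := by
        refine sum_eq_zero fun r _ => ?_
        by_cases hr : y r = 0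
        · rw [g3 (Sum.inl r) hr, zero_mul]
        · rw [h10 r (mem_filter.2 ⟨mem_univ _, hr⟩), sub_self, mul_zero]
      linarith

end Pool.Agent.Q161.AB
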